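import Mathlib
import Pool.Agent.P8H9.UO.Twi

/-!
# MP_160b6c_nt: a bound for the (modified) Szpiro ratio bounds the torsion polynomially over ALL extensions
# of ALL number fields, for the abelian varieties geometrically isogenous to products of elliptic curves

**Theorem.** For every `β > 0` there are `N ≥ 1` and `C` with the following property. Let `k` be ANY number
field and let `j_1, …, j_r` be elements of `k` with `h(j_i) ≥ C [k : ℚ]` and `∑_{v pole of j_i} log N v ≥ β h(j_i)`
(`h` is the relative logarithmic height over `k`). Let `K` be ANY finite extension of `k`, of degree `d`, and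
let `A` be an abelian variety over `K` of dimension `g` which is isogenous over the algebraic closure to a
product of elliptic curves with the invariants `j_1, …, j_r`. Then the order of every torsion point in `A(K)` is
at most `(N e d) ^ (2g)`, and the torsion subgroup of `A(K)` has at most `(N e d) ^ (4g²)` elements. Here
`e ≤ 3 ^ (g²)` is the order of the group by which the Galois group of `K` acts on the homomorphisms from the elliptic
curves to `A`; `e = 1` if `A` is isogenous over `K` to a product of elliptic curves over `K` with these
homomorphisms defined over `K`.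

The constant `N` depends only on `β`, neither on `k` nor on its degree; for `k = K` the orders are at most
`(3 ^ (g²) N) ^ (2g)` for all number fields `K` of any degree. The bound is polynomial in the degree of `K` over `k`,
which is optimal up to the exponent. The abelian varieties may be simple (for instance Weil
restrictions of twists). For a fixed `k` the condition `h(j_i) ≥ C [k : ℚ]` excludes finitely many invariants.

These abelian varieties are described by integral representations: with `Λ_i = Hom(E_i, A)` the group of the
homomorphisms over the algebraic closure, which is isomorphic to `ℤ ^ (n i)`, the evaluation maps give an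
isogeny over `K` from the product of the `E_i ⊗ Λ_i` to `A`. The points of `E_i ⊗ Λ_i` are the `n i`-tuples of
points of `E_i`, on which `σ` acts by `σ` on `E_i` and by its matrix.

Proof. (A) The orders of the cyclic subgroups of `E(k̄)` which are stable under the Galois group of `k` are
bounded in terms of `β`. Let `P` generate such a group of order `p ^ t`. (a) At a pole `v` of order `n` the
action of the inertia group shows that the multiple `P₁` of `P` of order `p ^ i` lies in the connected
component, unless `p ^ (t + 2 - 2i)` divides `n`. The other poles contribute little to the radical. (b) For a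
nonzero torsion point `Q` the sum over all places of the local heights is `0`. At every place, ALSO AT THE
INFINITE ONES, the local height is at least `(1/2) B₂(θ(Q)) log |j|_v - O(1)`, where `B₂` is the periodic
Bernoulli polynomial and `θ` is, up to bounded errors, a homomorphism to `ℝ / ℤ` (the position on the circle of
components of the degenerate fibre): the level `min(H, max(0, - log |z|))` of a complex point of a curve
with `|j| = exp(2H)` satisfies the laws of a circle of length `2H` up to `O(1)`. (c) For the multiples
`m P₁`, `m < M`, with the weights of Fejér, `∑ (1 - m/M) B₂(m θ) ≥ - 1/12`; so the poles in (a) contribute at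
most `h(j) / M + C [k : ℚ]` to the height of `j`: a contradiction for large `M`. (B) The image of the Galois
group in the automorphism group of `E[n]` contains the congruence subgroup of level `N(β)` of `SL₂(ℤ/n)` for
all `n`: `Pool.Agent.P8H9.UO.uo`, with the proof in `P8H9/UO/StmG.lean`. (C) So a cyclic subgroup of order `n`
has at least `n / N` conjugates over `k`, and if it is stable under a subgroup of finite index `D` of the Galois
group of `k` then `n ≤ N D`; the curves over `K` are twists of curves over `k`. (D) The kernel of the action on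
the lattices has the index `e d` in the Galois group of `k`, where `e` is bounded by Minkowski's lemma; over this
kernel the torsion of `A` is reduced to points and stable cyclic subgroups of the factors.
-/

set_option autoImplicit false

open NumberField IsDedekindDomain
open scoped Classical

namespace Pool.Agent.Results.MP_160b6c_nt.BoundedSzpiroRatio

/-- The curve `y² = x³ + Ax + B` over `K`. -/
def curve {K : Type} [Field K] (A B : K) : WeierstrassCurve K := ⟨0, 0, 0, A, B⟩

/-- The group of its points over the algebraic closure of `K`. -/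
abbrev Points {K : Type} [Field K] (A B : K) : Type :=
  ((curve A B).baseChange (AlgebraicClosure K)).toAffine.Point

/-- The action of an automorphism `σ` of the algebraic closure over `K` on the points. -/
noncomputable def galois {K : Type} [Field K] (A B : K)
    (σ : AlgebraicClosure K ≃ₐ[K] AlgebraicClosure K) : Points A B →+ Points A B :=
  WeierstrassCurve.Affine.Point.map (σ : AlgebraicClosure K →ₐ[K] AlgebraicClosure K)

/-- The invariant of `y² = x³ + Ax + B`. -/
noncomputable def jInvariant {K : Type} [Field K] (A B : K) : K :=
  6912 * A ^ 3 / (4 * A ^ 3 + 27 * B ^ 2)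

/-- The sum of `log N v` over the poles `v` of `j`: the primes with `v(j) < 0`. -/
noncomputable def poleRadical {K : Type} [Field K] [NumberField K] (j : K) : ℝ :=
  ∑ᶠ v ∈ {v : HeightOneSpectrum (𝓞 K) | 1 < v.valuation K j}, Real.log (Ideal.absNorm v.asIdeal)

/-- The height of `j` is at least `C [k : ℚ]` (relative logarithmic height), and the poles of `j` contribute
at least `β h(j)` to the logarithm of the radical. -/
def ManyPoles (β C : ℝ) {k : Type} [Field k] [NumberField k] (j : k) : Prop :=
  C * Module.finrank ℚ k ≤ Height.logHeight₁ j ∧ β * Height.logHeight₁ j ≤ poleRadical j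

/-- `y² = x³ + Ax + B` is an elliptic curve over `K` with the invariant `j` in `k`. -/
def HasInvariant {k K : Type} [Field k] [Field K] [Algebra k K] (A B : K) (j : k) : Prop :=
  4 * A ^ 3 + 27 * B ^ 2 ≠ 0 ∧ jInvariant A B = algebraMap k K j

/-- For each `i` an action of the Galois group on `ℤ ^ (n i)`; the Galois group of a finite extension of `K`
acts trivially. -/
structure Twist (K : Type) [Field K] {r : ℕ} (n : Fin r → ℕ) where
  /-- the matrix of `σ` on `ℤ ^ (n i)` -/
  rep : ∀ i, (AlgebraicClosure K ≃ₐ[K] AlgebraicClosure K) →*
    Matrix.GeneralLinearGroup (Fin (n i)) ℤ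
  /-- a finite extension trivialises the action -/
  finite : ∃ M : IntermediateField K (AlgebraicClosure K), FiniteDimensional K M ∧
    ∀ i, ∀ σ ∈ M.fixingSubgroup, rep i σ = 1

/-- The order `e` of the image of the Galois group in the product of the groups of automorphisms of the
`ℤ ^ (n i)`, that is the index of the group of the `σ` which act trivially on all `ℤ ^ (n i)`. -/
noncomputable def twistDegree {K : Type} [Field K] {r : ℕ} {n : Fin r → ℕ} (ρ : Twist K n) : ℕ :=
  (⨅ i, (ρ.rep i).ker).index

/-- The points over the algebraic closure of the product of the `E_i ⊗ ℤ ^ (n i)`, where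
`E_i : y² = x³ + A_i x + B_i`. -/
def Product {K : Type} [Field K] {r : ℕ} (n : Fin r → ℕ) (A B : Fin r → K) : Type :=
  ∀ i, Fin (n i) → Points (A i) (B i)

/-- The points of the product are added in each coordinate. -/
noncomputable instance {K : Type} [Field K] {r : ℕ} (n : Fin r → ℕ) (A B : Fin r → K) :
    AddCommGroup (Product n A B) :=
  Pi.addCommGroup

/-- The action of `σ` on the points of the product of the `E_i ⊗ ℤ ^ (n i)`, for the given action `ρ` on the
`ℤ ^ (n i)`: the product (twist) of the action on the points of `E_i` and of the matrix of `σ`. -/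
noncomputable def twisted {K : Type} [Field K] {r : ℕ} {n : Fin r → ℕ} {A B : Fin r → K}
    (ρ : Twist K n) (σ : AlgebraicClosure K ≃ₐ[K] AlgebraicClosure K) (x : Product n A B) :
    Product n A B :=
  fun i a => ∑ b, ((ρ.rep i σ : Matrix.GeneralLinearGroup (Fin (n i)) ℤ) :
    Matrix (Fin (n i)) (Fin (n i)) ℤ) a b • galois (A i) (B i) σ (x i b)

/-- The kernels of the isogenies over `K` from the twisted product: the finite subgroups of the group of
points over the algebraic closure which are stable under the Galois group. -/
def IsKernel {K : Type} [Field K] {r : ℕ} {n : Fin r → ℕ} {A B : Fin r → K} (ρ : Twist K n)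
    (Γ : AddSubgroup (Product n A B)) : Prop :=
  (Γ : Set (Product n A B)).Finite ∧
    ∀ (σ : AlgebraicClosure K ≃ₐ[K] AlgebraicClosure K) (x : Product n A B), x ∈ Γ →
      twisted ρ σ x ∈ Γ

/-- The class of `x` modulo `Γ` is a point over `K` of the quotient of the twisted product by `Γ`: it is
fixed by the Galois group. -/
def IsRational {K : Type} [Field K] {r : ℕ} {n : Fin r → ℕ} {A B : Fin r → K} (ρ : Twist K n)
    (Γ : AddSubgroup (Product n A B)) (x : Product n A B) : Prop :=
  ∀ σ : AlgebraicClosure K ≃ₐ[K] AlgebraicClosure K, twisted ρ σ x - x ∈ Γ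

/-- the order of the class of `x` modulo `Γ`, and `0` if the order is infinite -/
noncomputable def order {K : Type} [Field K] {r : ℕ} {n : Fin r → ℕ} {A B : Fin r → K}
    (Γ : AddSubgroup (Product n A B)) (x : Product n A B) : ℕ :=
  addOrderOf (x : Product n A B ⧸ Γ)

/-- `T` is a group of torsion points over `K` of the quotient of the twisted product by `Γ`. -/
def IsTorsionGroup {K : Type} [Field K] {r : ℕ} {n : Fin r → ℕ} {A B : Fin r → K} (ρ : Twist K n)
    (Γ : AddSubgroup (Product n A B)) (T : AddSubgroup (Product n A B ⧸ Γ)) : Prop :=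
  ∀ t ∈ T, IsOfFinAddOrder t ∧ ∃ x : Product n A B, IsRational ρ Γ x ∧ (x : Product n A B ⧸ Γ) = t

/-- The orders of the torsion points over `K` of the quotient of the twisted product by `Γ` are at most
`X ^ (2g)`. -/
def OrderBound (X g : ℕ) {K : Type} [Field K] {r : ℕ} {n : Fin r → ℕ} {A B : Fin r → K}
    (ρ : Twist K n) (Γ : AddSubgroup (Product n A B)) : Prop :=
  ∀ x : Product n A B, IsRational ρ Γ x → order Γ x ≤ X ^ (2 * g)

/-- The groups of torsion points over `K` of the quotient have at most `X ^ (4g²)` elements. -/
def SizeBound (X g : ℕ) {K : Type} [Field K] {r : ℕ} {n : Fin r → ℕ} {A B : Fin r → K}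
    (ρ : Twist K n) (Γ : AddSubgroup (Product n A B)) : Prop :=
  ∀ T : AddSubgroup (Product n A B ⧸ Γ), IsTorsionGroup ρ Γ T →
    Finite T ∧ Nat.card T ≤ X ^ (4 * g ^ 2)

/-- **Theorem.** -/
theorem result (β : ℝ) (hβ : 0 < β) : ∃ (N : ℕ) (C : ℝ), 0 < N ∧
    ∀ (k K : Type) [Field k] [NumberField k] [Field K] [NumberField K] [Algebra k K]
      (r : ℕ) (n : Fin r → ℕ) (j : Fin r → k) (A B : Fin r → K), (∀ i, ManyPoles β C (j i)) →
      (∀ i, HasInvariant (A i) (B i) (j i)) →
      ∀ (ρ : Twist K n) (Γ : AddSubgroup (Product n A B)), IsKernel ρ Γ →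
        OrderBound (N * twistDegree ρ * Module.finrank k K) (∑ i, n i) ρ Γ ∧
        SizeBound (N * twistDegree ρ * Module.finrank k K) (∑ i, n i) ρ Γ ∧
        twistDegree ρ ≤ 3 ^ (∑ i, n i) ^ 2 := by
  obtain ⟨N, C, hN, -, h⟩ := Pool.Agent.P8H9.UO.lc_all β hβ
  refine ⟨N, C, hN, ?_⟩
  intro k K _ _ _ _ _ r n j A B hj hAB ρ Γ hΓ
  have : FiniteDimensional k K := Module.Finite.of_restrictScalars_finite ℚ k K
  have hrad : ∀ j : k, Pool.Agent.P8H9.TQ.rad j = poleRadical j := by
    intro j
    unfold Pool.Agent.P8H9.TQ.rad poleRadical
    rw [finsum_mem_def]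
    congr 1
    funext v
    rw [Set.indicator_apply]
    congr 1
    exact propext (Pool.Agent.P8H9.TQ.one_lt_fv v j)
  have hht : ∀ j : k, Pool.Agent.W223.AK.ht j = Height.logHeight₁ j := by
    intro j
    rw [Pool.Agent.Y733.LS.logHeight_eq, ← Pool.Agent.Y733.LS.ht_eq_Sa]
  have hLC : ∀ i, Pool.Agent.P8H9.UO.LC N (j i) := by
    intro i
    obtain ⟨h1, h2⟩ := hj i
    rw [← hht] at h1 h2
    rw [← hrad] at h2
    exact h k (j i) h1 h2
  have hρ : ∀ i σ, ∃ t : ℕ, 0 < t ∧ ρ.rep i σ ^ t = 1 := by
    intro i σ
    obtain ⟨M, hM, h1⟩ := ρ.finite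
    obtain ⟨t, ht, h2⟩ := Pool.Agent.P8H12.ST.pow_fix M σ
    exact ⟨t, ht, by rw [← map_pow]; exact h1 i _ h2⟩
  obtain ⟨he0, he⟩ := Pool.Agent.P8H9.UO.idx_le ρ.rep hρ
  have hX : N * (twistDegree ρ * Module.finrank k K) = N * twistDegree ρ * Module.finrank k K :=
    (mul_assoc _ _ _).symm
  have key : ∀ x : Product n A B, IsRational ρ Γ x → IsOfFinAddOrder (x : Product n A B ⧸ Γ) →
      order Γ x ≤ (N * twistDegree ρ * Module.finrank k K) ^ (2 * ∑ i, n i) := by
    intro x hx hf
    rw [← hX]
    exact Pool.Agent.P8H9.UO.tq_geo hN k K (fun i => (hAB i).1) j hLC (fun i => (hAB i).2)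
      ρ.rep he0 Γ hΓ.1 hΓ.2 (x := x) hx hf
  refine ⟨?_, ?_, he⟩
  · intro x hx
    rcases Nat.eq_zero_or_pos (order Γ x) with h0 | h0
    · rw [h0]
      exact Nat.zero_le _
    · exact key x hx (addOrderOf_pos_iff.1 h0)
  · intro T hT
    have h3 := Pool.Agent.P8H12.ST.siz Pool.Agent.N152.TS.t_SIZE
      (V := fun i => Points (A i) (B i)) (fun i q hq => Pool.Agent.P8H9.TQ.span2 (hAB i).1 hq) Γ
      hΓ.1 T ((N * twistDegree ρ * Module.finrank k K) ^ (2 * ∑ i, n i)) (by
        intro t ht
        obtain ⟨hf, x, hx, rfl⟩ := hT t ht
        exact ⟨hf, key x hx hf⟩)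
    refine ⟨h3.1, h3.2.trans (le_of_eq ?_)⟩
    rw [← pow_mul]
    congr 1
    ring

end Pool.Agent.Results.MP_160b6c_nt.BoundedSzpiroRatio
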