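import Pool.Agent.P8H12.ST.Ord2
import Pool.Agent.P8H12.ST.Twi2
import Pool.Agent.P8H12.ST.Siz
import Pool.Agent.P8H12.ST.Fix
import Pool.Agent.P8H61.DV.Min
import Pool.Agent.P8H75.DV.Idx
import Pool.Agent.P8H75.DV.Orb
import Pool.Agent.N617.TS.TORSM
import Pool.Agent.N152.TS.SIZE
import Pool.Agent.N524.TS.SERRE

/-!
# MP_160b6c_nt: torsion and the degree of the field, for all abelian varieties geometrically isogenous to
products of elliptic curves with almost all invariants

Let `k` be a number field. The invariants `j ≠ 0, 1728` in `k`, of ALL heights, are ordered by the product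
`radical j` of the norms of the primes (not dividing six) at which `j` reduces to `0`, `1728` or `∞`; there
are `X ^ (2 / 3 + o(1))` with `radical j ≤ X`.

**Theorem.** There is a set `J` of invariants in `k` which contains all but a proportion `X ^ (-ν)` of the
invariants with `radical j ≤ X`, such that for EVERY finite extension `K` of `k`, EVERY `g` and EVERY abelian
variety `A` over `K` of dimension `g` which is isogenous over the algebraic closure of `K` to a product
`∏ E_i ^ (n i)` of elliptic curves with invariants in `J` (`E_i` not isogenous for different `i`) the following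
holds. Let `e` be the order of the image of the Galois group of `K` in the product of the automorphism groups
of the lattices `Hom(E_i, A)`, and `D = [K : k] e`.

* `e` divides the product of the orders of the groups `GL(n i, F_q)`, for all primes `q ≠ 2`; and `e = 1` if `A` is
  isogenous to the product over `K`;
* `l + 1` divides `D` for all primes `l` which divide the order of a torsion point in `A(K)`;
* more precisely the order of every torsion point in `A(K)` divides a product of `2g` numbers `m_i`, `w_i`
  such that for the prime powers `l ^ a` which divide `m_i` or `w_i` the number `l ^ (a - 1) (l + 1)` of the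
  cyclic subgroups of order `l ^ a` of an elliptic curve divides `D`, and for the prime powers `l ^ a` which divide
  `w_i` the number `l ^ (2a - 2) (l ^ 2 - 1)` of the points of order `l ^ a` divides `2D`;
* the order is at most `D ^ (4g)`, and `A(K)` has at most `D ^ (8g²)` torsion points.

For instance there is no torsion in `A(K)` if `[K : k]` is prime to `6` and `A` is isogenous over `K` to a
product of such elliptic curves. The starting result `AlmostAllProducts` concerns the case `e = 1` (isogenies
over `K`), and has `l + 1 ≤ [K : k]` instead of the divisibility; `SolvableTowers` of this folder has bounds for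
fields of arbitrary degree, but they are exponential in the degree (for `s = 0`) and contain no divisibility.

These abelian varieties are described by integral representations: with `Λ_i = Hom(E_i, A)` the group of the
homomorphisms over the algebraic closure, which is isomorphic to `ℤ ^ (n i)`, the evaluation maps give an
isogeny over `K` from the product of the `E_i ⊗ Λ_i` to `A`. The points of `E_i ⊗ Λ_i` are the `n i`-tuples of
points of `E_i`, on which `σ` acts by `σ` on `E_i` and by its matrix.

Proof. For `j ∈ J` the image of the Galois group of `k` in the automorphism group of `E[l ^ a]`, for every curve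
`E` over `k` of invariant `j` and all prime powers `l ^ a`, contains all automorphisms of determinant `1` (engine
`Q19.SU` of helper19 and helper304, and Serre's lemma; `LJk` of helper495), so it permutes the cyclic subgroups of
order `l ^ a`, and the points of order `l ^ a`, transitively. The kernel `N` of the twist has the index `e` in the
Galois group of `K`, and the index `D` in the group of `k`. By `TORSM` (helper617) a torsion order divides a
product of orders of `g` cyclic subgroups of the factors which are stable under `N` and of `g` points fixed by `N`.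
The divisibility is the orbit formula, since a point of a curve over `K` which is fixed by `N` is fixed up to
sign on the twist which is defined over `k`.

By helper12 with helper61 (Minkowski's lemma) and helper75 (orbits, index).
-/

set_option autoImplicit false

open NumberField IsDedekindDomain
open scoped Classical

namespace Pool.Agent.Results.MP_160b6c_nt.DegreeDivisibility

/-- The curve `y² = x³ + Ax + B` over `K`. -/
def curve {K : Type} [Field K] (A B : K) : WeierstrassCurve K := ⟨0, 0, 0, A, B⟩

/-- The group of its points over the algebraic closure of `K`. -/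
abbrev Points {K : Type} [Field K] (A B : K) : Type :=
  ((curve A B).baseChange (AlgebraicClosure K)).toAffine.Point

/-- The action of an automorphism `σ` of the algebraic closure over `K` on the points. -/
noncomputable def galois {K : Type} [Field K] (A B : K)
    (σ : AlgebraicClosure K ≃ₐ[K] AlgebraicClosure K) : Points A B →+ Points A B :=
  WeierstrassCurve.Affine.Point.map (σ : AlgebraicClosure K →ₐ[K] AlgebraicClosure K)

/-- The invariant of `y² = x³ + Ax + B`. -/
noncomputable def jInvariant {K : Type} [Field K] (A B : K) : K :=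
  6912 * A ^ 3 / (4 * A ^ 3 + 27 * B ^ 2)

/-- the product of the norms of the primes not dividing six at which `j` reduces to `0`, `1728` or
`∞` -/
noncomputable def radical {K : Type} [Field K] [NumberField K] (j : K) : ℝ :=
  ∏ᶠ v ∈ {v : HeightOneSpectrum (𝓞 K) | v.valuation K 6 = 1 ∧
    (v.valuation K j ≠ 1 ∨ v.valuation K (j - 1728) ≠ 1)}, (Ideal.absNorm v.asIdeal : ℝ)

/-- the invariants `j ≠ 0, 1728`, of whatever height, with `radical j ≤ X` -/
def Invariants (K : Type) [Field K] [NumberField K] (X : ℝ) : Set K :=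
  {j | j ≠ 0 ∧ j ≠ 1728 ∧ radical j ≤ X}

/-- For each `i` an action of the Galois group on `ℤ ^ (n i)`; the Galois group of a finite extension of `K`
acts trivially. -/
structure Twist (K : Type) [Field K] {r : ℕ} (n : Fin r → ℕ) where
  /-- the matrix of `σ` on `ℤ ^ (n i)` -/
  rep : ∀ i, (AlgebraicClosure K ≃ₐ[K] AlgebraicClosure K) →*
    Matrix.GeneralLinearGroup (Fin (n i)) ℤ
  /-- a finite extension trivialises the action -/
  finite : ∃ M : IntermediateField K (AlgebraicClosure K), FiniteDimensional K M ∧
    ∀ i, ∀ σ ∈ M.fixingSubgroup, rep i σ = 1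

/-- The order `e` of the image of the Galois group in the product of the groups of automorphisms of the
`ℤ ^ (n i)`, that is the index of the group of the `σ` which act trivially on all `ℤ ^ (n i)`. -/
noncomputable def twistDegree {K : Type} [Field K] {r : ℕ} {n : Fin r → ℕ} (ρ : Twist K n) : ℕ :=
  (⨅ i, (ρ.rep i).ker).index

/-- The points over the algebraic closure of the product of the `E_i ⊗ ℤ ^ (n i)`, where
`E_i : y² = x³ + A_i x + B_i`. -/
def Product {K : Type} [Field K] {r : ℕ} (n : Fin r → ℕ) (A B : Fin r → K) : Type :=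
  ∀ i, Fin (n i) → Points (A i) (B i)

/-- The points of the product are added in each coordinate. -/
noncomputable instance {K : Type} [Field K] {r : ℕ} (n : Fin r → ℕ) (A B : Fin r → K) :
    AddCommGroup (Product n A B) :=
  Pi.addCommGroup

/-- The action of `σ` on the points of the product of the `E_i ⊗ ℤ ^ (n i)`, for the given action `ρ` on the
`ℤ ^ (n i)`: the product (twist) of the action on the points of `E_i` and of the matrix of `σ`. -/
noncomputable def twisted {K : Type} [Field K] {r : ℕ} {n : Fin r → ℕ} {A B : Fin r → K}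
    (ρ : Twist K n) (σ : AlgebraicClosure K ≃ₐ[K] AlgebraicClosure K) (x : Product n A B) :
    Product n A B :=
  fun i a => ∑ b, ((ρ.rep i σ : Matrix.GeneralLinearGroup (Fin (n i)) ℤ) :
    Matrix (Fin (n i)) (Fin (n i)) ℤ) a b • galois (A i) (B i) σ (x i b)

/-- The kernels of the isogenies over `K` from the twisted product: the finite subgroups of the group of
points over the algebraic closure which are stable under the Galois group. -/
def IsKernel {K : Type} [Field K] {r : ℕ} {n : Fin r → ℕ} {A B : Fin r → K} (ρ : Twist K n)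
    (Γ : AddSubgroup (Product n A B)) : Prop :=
  (Γ : Set (Product n A B)).Finite ∧
    ∀ (σ : AlgebraicClosure K ≃ₐ[K] AlgebraicClosure K) (x : Product n A B), x ∈ Γ →
      twisted ρ σ x ∈ Γ

/-- The class of `x` modulo `Γ` is a point over `K` of the quotient of the twisted product by `Γ`: it is
fixed by the Galois group. -/
def IsRational {K : Type} [Field K] {r : ℕ} {n : Fin r → ℕ} {A B : Fin r → K} (ρ : Twist K n)
    (Γ : AddSubgroup (Product n A B)) (x : Product n A B) : Prop :=
  ∀ σ : AlgebraicClosure K ≃ₐ[K] AlgebraicClosure K, twisted ρ σ x - x ∈ Γ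

/-- the order of the class of `x` modulo `Γ`, and `0` if the order is infinite -/
noncomputable def order {K : Type} [Field K] {r : ℕ} {n : Fin r → ℕ} {A B : Fin r → K}
    (Γ : AddSubgroup (Product n A B)) (x : Product n A B) : ℕ :=
  addOrderOf (x : Product n A B ⧸ Γ)

/-- `T` is a group of torsion points over `K` of the quotient of the twisted product by `Γ`. -/
def IsTorsionGroup {K : Type} [Field K] {r : ℕ} {n : Fin r → ℕ} {A B : Fin r → K} (ρ : Twist K n)
    (Γ : AddSubgroup (Product n A B)) (T : AddSubgroup (Product n A B ⧸ Γ)) : Prop :=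
  ∀ t ∈ T, IsOfFinAddOrder t ∧ ∃ x : Product n A B, IsRational ρ Γ x ∧ (x : Product n A B ⧸ Γ) = t

/-- For all prime powers `l ^ a ∣ m`, `a ≥ 1`, the number `l ^ (a - 1) (l + 1)` of the cyclic subgroups of order
`l ^ a` of an elliptic curve divides `D`. -/
def LinesDivide (D m : ℕ) : Prop :=
  ∀ l a : ℕ, l.Prime → 1 ≤ a → l ^ a ∣ m → l ^ (a - 1) * (l + 1) ∣ D

/-- For all prime powers `l ^ a ∣ m`, `a ≥ 1`, the number `l ^ (2 (a - 1)) (l ^ 2 - 1)` of the points of order
`l ^ a` of an elliptic curve divides `D`. -/
def PointsDivide (D m : ℕ) : Prop :=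
  ∀ l a : ℕ, l.Prime → 1 ≤ a → l ^ a ∣ m → l ^ (2 * (a - 1)) * (l ^ 2 - 1) ∣ D

/-- The assertions for the torsion points over `K` of the quotient of the twisted product by `Γ`; `g` is its
dimension and `D` is the degree of `K` over `k` times `e = twistDegree ρ`. (1) `l + 1 ∣ D` for the prime
divisors `l` of the orders. (2) The orders divide products of `2g` numbers `m a`, `w a`, for which the numbers of
lines divide `D`, and for the `w a` the numbers of points divide `2D`. (3) The orders are at most `D ^ (4g)`.
(4) There are at most `D ^ (8g²)` torsion points. -/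
def TorsionBound {K : Type} [Field K] {r : ℕ} {n : Fin r → ℕ} {A B : Fin r → K} (D g : ℕ)
    (ρ : Twist K n) (Γ : AddSubgroup (Product n A B)) : Prop :=
  (∀ x : Product n A B, IsRational ρ Γ x → order Γ x ≠ 0 →
    (∀ l : ℕ, l.Prime → l ∣ order Γ x → l + 1 ∣ D) ∧
    (∃ m w : Fin g → ℕ, order Γ x ∣ ∏ a, (m a * w a) ∧
      ∀ a, LinesDivide D (m a) ∧ LinesDivide D (w a) ∧ PointsDivide (2 * D) (w a)) ∧
    order Γ x ≤ D ^ (4 * g)) ∧
  ∀ T : AddSubgroup (Product n A B ⧸ Γ), IsTorsionGroup ρ Γ T →
    Finite T ∧ Nat.card T ≤ D ^ (8 * g ^ 2)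

/-- For all finite extensions `K` of `k` and all abelian varieties over `K` which are geometrically isogenous to
products of elliptic curves with invariants in `J`: the assertions above, and `e = twistDegree ρ` divides the
product of the orders of the groups `GL(n i, F_q)` for all primes `q ≠ 2`. -/
def DegreesDivide (k : Type) [Field k] [NumberField k] (J : Set k) : Prop :=
  ∀ (K : Type) [Field K] [Algebra k K] [FiniteDimensional k K] (r : ℕ) (n : Fin r → ℕ)
    (A B : Fin r → K) (j : Fin r → k),
      (∀ i, 4 * A i ^ 3 + 27 * B i ^ 2 ≠ 0 ∧ j i ∈ J ∧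
        jInvariant (A i) (B i) = algebraMap k K (j i)) →
      ∀ (ρ : Twist K n) (Γ : AddSubgroup (Product n A B)), IsKernel ρ Γ →
        TorsionBound (Module.finrank k K * twistDegree ρ) (∑ i, n i) ρ Γ ∧
        ∀ q : ℕ, q.Prime → q ≠ 2 →
          twistDegree ρ ∣ ∏ i, ∏ a ∈ Finset.range (n i), (q ^ n i - q ^ a)

theorem inv_eq (K : Type) [Field K] [NumberField K] (X : ℝ) :
    Invariants K X = Pool.Agent.Q19.JL.Iv K X := by
  ext j
  constructor
  · rintro ⟨h0, h1, h2⟩
    refine ⟨h0, h1, ?_⟩
    rw [← Pool.Agent.Q19.JL.rad_eq h0 h1]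
    exact h2
  · rintro ⟨h0, h1, h2⟩
    refine ⟨h0, h1, ?_⟩
    rw [← Pool.Agent.Q19.JL.rad_eq h0 h1] at h2
    exact h2

/-- the bounds over a finite extension -/
theorem bounded (k : Type) [Field k] [NumberField k] (K : Type) [Field K] [Algebra k K]
    [FiniteDimensional k K] (r : ℕ) (n : Fin r → ℕ) (A B : Fin r → K) (j : Fin r → k)
    (h : ∀ i, 4 * A i ^ 3 + 27 * B i ^ 2 ≠ 0 ∧ Pool.Agent.N495.TS.LJk (j i) ∧
      jInvariant (A i) (B i) = algebraMap k K (j i))
    (ρ : Twist K n) (Γ : AddSubgroup (Product n A B)) (hΓ : IsKernel ρ Γ) :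
    TorsionBound (Module.finrank k K * twistDegree ρ) (∑ i, n i) ρ Γ ∧
      ∀ q : ℕ, q.Prime → q ≠ 2 →
        twistDegree ρ ∣ ∏ i, ∏ a ∈ Finset.range (n i), (q ^ n i - q ^ a) := by
  have : CharZero K := charZero_of_injective_algebraMap (algebraMap k K).injective
  have hρ : ∀ i σ, ∃ t : ℕ, 0 < t ∧ ρ.rep i σ ^ t = 1 := by
    intro i σ
    obtain ⟨M, hM, h1⟩ := ρ.finite
    obtain ⟨t, ht, h2⟩ := Pool.Agent.P8H12.ST.pow_fix M σ
    exact ⟨t, ht, by rw [← map_pow]; exact h1 i _ h2⟩
  have hidx := Pool.Agent.P8H75.DV.idx Pool.Agent.P8H61.DV.min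
  obtain ⟨D, hD⟩ : ∃ D : ℕ, D = Module.finrank k K * twistDegree ρ := ⟨_, rfl⟩
  have he0 : twistDegree ρ ≠ 0 :=
    (hidx 3 r n Nat.prime_three (by norm_num) _ ρ.rep hρ).1
  have hD' : (⨅ i, (ρ.rep i).ker).index * Module.finrank k K = D := by
    rw [hD, mul_comm]
    rfl
  rw [← hD]
  have hDpos : 1 ≤ D := by
    rw [hD]
    exact Nat.mul_pos Module.finrank_pos (Nat.pos_of_ne_zero he0)
  refine ⟨?_, fun q hq hq2 => (hidx q r n hq hq2 _ ρ.rep hρ).2⟩
  -- torsion orders
  have key : ∀ x : Product n A B, IsRational ρ Γ x → order Γ x ≠ 0 →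
      (∀ l : ℕ, l.Prime → l ∣ order Γ x → l + 1 ∣ D) ∧
      (∃ m w : Fin (∑ i, n i) → ℕ, order Γ x ∣ ∏ a, (m a * w a) ∧
        ∀ a, LinesDivide D (m a) ∧ LinesDivide D (w a) ∧ PointsDivide (2 * D) (w a)) ∧
      order Γ x ≤ D ^ (4 * ∑ i, n i) := by
    intro x hx h0
    have hf := addOrderOf_pos_iff.1 (Nat.pos_of_ne_zero h0)
    obtain ⟨c, w, h1, h2⟩ := Pool.Agent.P8H12.ST.twi2 Pool.Agent.N617.TS.t_TORSM
      (V := fun i => Points (A i) (B i))
      (fun i σ => galois (A i) (B i) σ) (fun i q hq => Pool.Agent.P8H12.ST.span2' (h i).1 hq)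
      ρ.rep Γ hΓ.1 hΓ.2 x hx hf
    have hc := fun a => Pool.Agent.P8H12.ST.ordH Pool.Agent.P8H75.DV.orb
      (h _).1 (h _).2.1 (h _).2.2 _ he0 (h1 a).1 (h1 a).2.2.1
    have hw := fun a => Pool.Agent.P8H12.ST.ordH Pool.Agent.P8H75.DV.orb
      (h _).1 (h _).2.1 (h _).2.2 _ he0 (h1 a).2.1 (fun σ hσ => by
        rw [show Pool.Agent.Y673.Loc.act _ _ σ (w a) = w a from (h1 a).2.2.2 σ hσ]
        exact AddSubgroup.mem_zmultiples _)
    rw [hD'] at hc hw
    have hpos : 0 < ∏ a, (addOrderOf (c a) * addOrderOf (w a)) :=
      Finset.prod_pos fun a _ => Nat.mul_pos (h1 a).1.addOrderOf_pos (h1 a).2.1.addOrderOf_pos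
    refine ⟨?_, ⟨fun a => addOrderOf (c a), fun a => addOrderOf (w a), h2, fun a =>
      ⟨(hc a).1, (hw a).1, (hw a).2.2 (h1 a).2.2.2⟩⟩, ?_⟩
    · intro l hl hd
      obtain ⟨a, -, ha⟩ := (Prime.dvd_finsetProd_iff hl.prime _).1 (hd.trans h2)
      rcases (hl.dvd_mul).1 ha with h4 | h4
      · simpa using (hc a).1 l 1 hl le_rfl (by rw [pow_one]; exact h4)
      · simpa using (hw a).1 l 1 hl le_rfl (by rw [pow_one]; exact h4)
    · refine (Nat.le_of_dvd hpos h2).trans ?_
      refine (Finset.prod_le_prod' (g := fun _ => D ^ 4) fun a _ => ?_).trans ?_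
      · have h3 := Nat.mul_le_mul (hc a).2.1 (hw a).2.1
        rw [← pow_add] at h3
        exact h3
      · rw [Finset.prod_const, Finset.card_univ, Fintype.card_fin, ← pow_mul]
  refine ⟨key, fun T hTT => ?_⟩
  have h3 := Pool.Agent.P8H12.ST.siz Pool.Agent.N152.TS.t_SIZE
    (V := fun i => Points (A i) (B i)) (fun i q hq => Pool.Agent.P8H12.ST.span2' (h i).1 hq) Γ
    hΓ.1 T (D ^ (4 * ∑ i, n i)) (by
      intro t ht
      obtain ⟨hf, x, hx, rfl⟩ := hTT t ht
      exact ⟨hf, (key x hx hf.addOrderOf_pos.ne').2.2⟩)
  refine ⟨h3.1, h3.2.trans (le_of_eq ?_)⟩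
  rw [← pow_mul]
  congr 1
  ring

/-- **Theorem.** For every number field `k` there is a set `J` of invariants, containing all but a proportion
`X ^ (-ν)` of the `X ^ (2 / 3 + o(1))` invariants `j ≠ 0, 1728` of `k` with `radical j ≤ X`, such that for all finite
extensions `K` of `k`, all `g` and all abelian varieties `A` over `K` of dimension `g` which are isogenous over the
algebraic closure to products `∏ E_i ^ (n i)` of elliptic curves with invariants in `J`: let `e` be the order of
the image of the Galois group on the lattices `Hom(E_i, A)` and `D = [K : k] e`. Then `l + 1 ∣ D` for all primes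
`l` which divide the order of a torsion point in `A(K)`; the order of every torsion point divides a product of `2g`
numbers, such that `l ^ (a - 1) (l + 1) ∣ D` for all prime powers `l ^ a` which divide one of them (and
`l ^ (2a - 2) (l ^ 2 - 1) ∣ 2D` for the prime powers which divide one of the last `g` of them); it is at most
`D ^ (4g)`; there are at most `D ^ (8g²)` torsion points; and `e` divides the product of the orders of the groups
`GL(n i, F_q)` for every prime `q ≠ 2`. -/
theorem result (k : Type) [Field k] [NumberField k] :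
    ∃ J : Set k, DegreesDivide k J ∧
      (∃ ν X₀ : ℝ, 0 < ν ∧ ∀ X : ℝ, X₀ ≤ X →
        (({j | j ∈ Invariants k X ∧ j ∉ J} : Set k).ncard : ℝ) ≤
          X ^ (-ν) * (Invariants k X).ncard) ∧
      ∀ δ : ℝ, 0 < δ → ∃ X₀ : ℝ, ∀ X : ℝ, X₀ ≤ X → (Invariants k X).Finite ∧
        X ^ (2 / 3 - δ) ≤ ((Invariants k X).ncard : ℝ) ∧
        ((Invariants k X).ncard : ℝ) ≤ X ^ (2 / 3 + δ) := by
  refine ⟨{j | Pool.Agent.N495.TS.LJk j}, ?_, ?_, ?_⟩
  · intro K _ _ _ r n A B j h ρ Γ hΓ
    exact bounded k K r n A B j h ρ Γ hΓ
  · obtain ⟨ν, X₀, hν, -, h⟩ := Pool.Agent.Q19.SU.n_prop k (1 / 2) 1 (by norm_num)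
    refine ⟨ν, X₀, hν, fun X hX => ?_⟩
    rw [inv_eq]
    refine h X hX _ (fun j hj => hj.1) fun j hj hcon => hj.2 ?_
    refine Pool.Agent.N495.TS.ljk_of Pool.Agent.N524.TS.t_SERRE hj.1.1 hj.1.2.1 hcon.1 ?_
    have h1 := hcon.2.1
    have h2 := hcon.2.2
    linarith
  · intro δ hδ
    obtain ⟨X1, hX1, h1⟩ := Pool.Agent.Q19.JL.Iv_upper k δ hδ
    obtain ⟨X2, hX2, h2⟩ := Pool.Agent.Q19.JL.Iv_lower k δ hδ
    refine ⟨max X1 X2, fun X hX => ?_⟩
    rw [inv_eq]
    exact ⟨Pool.Agent.Q19.JL.Iv_fin k (hX1.trans ((le_max_left _ _).trans hX)),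
      h2 X ((le_max_right _ _).trans hX), h1 X ((le_max_left _ _).trans hX)⟩

end Pool.Agent.Results.MP_160b6c_nt.DegreeDivisibility
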