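import Pool.Agent.P8H12.ST.Fac
import Pool.Agent.P8H12.ST.Siz
import Pool.Agent.P8H12.ST.Ar
import Pool.Agent.P8H12.ST.Fix
import Pool.Agent.P8H44.ST.Fin
import Pool.Agent.P8H4.PF.Gpw
import Pool.Agent.P8H53.PF.Nrm
import Pool.Agent.P8H76.PF.Core
import Pool.Agent.N617.TS.TORSM
import Pool.Agent.N152.TS.SIZE
import Pool.Agent.N524.TS.SERRE

/-!
# MP_160b6c_nt: torsion of order prime to six over extensions without projective factors: a bound which depends
only on the dimension

Let `k` be a number field. The invariants `j ≠ 0, 1728` in `k`, of ALL heights, are ordered by the product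
`radical j` of the norms of the primes (not dividing six) at which `j` reduces to `0`, `1728` or `∞`; there
are `X ^ (2 / 3 + o(1))` with `radical j ≤ X`.

**Theorem.** There is a set `J` of invariants in `k` which contains all but a proportion `X ^ (-ν)` of the
invariants with `radical j ≤ X`, with the following property. Let `F` be an extension of `k` of degree at most `d`,
and let `L` be a Galois extension of `F`, of finite or infinite degree, in which none of the simple groups
`PSL₂(F_l)`, `l > max(d, 3)` prime, is a factor: there are no finite extensions `k₁ ⊆ k₂` of `F` in `L` for which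
`k₁` is Galois over `F` and `k₂` is Galois over `k₁` with a Galois group isomorphic to `PSL₂(F_l)`. Then for EVERY field
`K` with `k ⊆ K ⊆ L`, EVERY `g` and EVERY abelian variety `A` over `K` of dimension `g` which is isogenous over the
algebraic closure of `K` to a product of elliptic curves with invariants in `J`: let `m` be a divisor of the order
of a torsion point in `A(K)` which is prime to all primes `≤ max(d, 3)`. Then `m` divides
`lcm(1, …, 2g) ^ (2g)`, and a group of points in `A(K)` of such orders `m` has at most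
`lcm(1, …, 2g) ^ (4g²)` elements.

So the bound depends only on `g`, and the set of the excluded primes only on `d`. For `d = 1` the field `L` may be
the largest Galois extension of `k` without factors `PSL₂(F_l)`, `l ≥ 5`; it contains for example the maximal
solvable extension of `k` and all Galois extensions of `k` whose groups are alternating or symmetric groups of
degree at least seven. At the primes `2` and `3` there is no bound over these fields, since all points of
`2`-power and `3`-power order of an elliptic curve over `k` are defined over the maximal solvable extension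
(`SL₂(ℤ/2^a)` and `SL₂(ℤ/3^a)` are solvable). The result `SolvableTowers` of this folder bounds the whole torsion
over towers of a given number of abelian extensions; here the number of steps is arbitrary (and may be
infinite), and the groups need not be solvable.

These abelian varieties are described by integral representations: let `E_i`, `i < r`, be elliptic curves over
`K` with invariants in `J`, no two of them isogenous, and let `Λ_i = Hom(E_i, A)` be the group of the
homomorphisms over the algebraic closure; it is isomorphic to `ℤ ^ (n i)`, the Galois group acts on it through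
the group of a finite extension, and the evaluation maps give an isogeny over `K` from the product of the
`E_i ⊗ Λ_i` to `A`. The points of `E_i ⊗ Λ_i` are the `n i`-tuples of points of `E_i`, on which `σ` acts by
`σ` on `E_i` and by its matrix.

Proof. For `j ∈ J` the image of the Galois group of `k` in the automorphism group of `E[l ^ a]` contains all
automorphisms of determinant `1`, for every curve `E` over `k` of invariant `j` and all prime powers (engine `Q19.SU` of
helper19 and helper304, and Serre's lemma; `LJk` of helper495). For `l > max(d, 3)` the same holds for the group of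
`F`, and then for its normal subgroup, the group of `L`: otherwise its image would be a proper normal subgroup of
`SL₂(ℤ/l^a)`, which dies in the simple group `PSL₂(F_l)`, and `PSL₂(F_l)` would be a factor of `L` over `F`. An
integral matrix of finite order of size at most `g` has an order which divides `lcm(1, …, 2g)`, so a power of every
element of the group of `K`, with this exponent, acts on the twisted product as on the untwisted one. For these
powers the torsion of quotients of products is controlled by the stable cyclic subgroups of the factors (`TORSM` of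
helper617), and the unipotent matrices in the image bound their orders.

By helper12 with helper4 (generation of `SL₂`), helper53 (normal subgroups), helper76 (the group theoretic core) and
helper44 (finite order matrices).
-/

set_option autoImplicit false

open NumberField IsDedekindDomain
open scoped Classical

namespace Pool.Agent.Results.MP_160b6c_nt.NoProjectiveFactor

/-- The curve `y² = x³ + Ax + B` over `K`. -/
def curve {K : Type} [Field K] (A B : K) : WeierstrassCurve K := ⟨0, 0, 0, A, B⟩

/-- The group of its points over the algebraic closure of `K`. -/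
abbrev Points {K : Type} [Field K] (A B : K) : Type :=
  ((curve A B).baseChange (AlgebraicClosure K)).toAffine.Point

/-- The action of an automorphism `σ` of the algebraic closure over `K` on the points. -/
noncomputable def galois {K : Type} [Field K] (A B : K)
    (σ : AlgebraicClosure K ≃ₐ[K] AlgebraicClosure K) : Points A B →+ Points A B :=
  WeierstrassCurve.Affine.Point.map (σ : AlgebraicClosure K →ₐ[K] AlgebraicClosure K)

/-- The invariant of `y² = x³ + Ax + B`. -/
noncomputable def jInvariant {K : Type} [Field K] (A B : K) : K :=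
  6912 * A ^ 3 / (4 * A ^ 3 + 27 * B ^ 2)

/-- the product of the norms of the primes not dividing six at which `j` reduces to `0`, `1728` or
`∞` -/
noncomputable def radical {K : Type} [Field K] [NumberField K] (j : K) : ℝ :=
  ∏ᶠ v ∈ {v : HeightOneSpectrum (𝓞 K) | v.valuation K 6 = 1 ∧
    (v.valuation K j ≠ 1 ∨ v.valuation K (j - 1728) ≠ 1)}, (Ideal.absNorm v.asIdeal : ℝ)

/-- the invariants `j ≠ 0, 1728`, of whatever height, with `radical j ≤ X` -/
def Invariants (K : Type) [Field K] [NumberField K] (X : ℝ) : Set K :=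
  {j | j ≠ 0 ∧ j ≠ 1728 ∧ radical j ≤ X}

/-- `PSL₂(F_l)` is a factor of `L` over `F`: there are finite extensions `k₁ ⊆ k₂` of `F` in `L` such that `k₁` is Galois
over `F` and `k₂` is Galois over `k₁` with Galois group `PSL₂(F_l)` (the fields are subfields of the algebraic closure
of `k`, and the Galois group of `k₂` over `k₁` is the quotient of the group of all automorphisms over `k₁` by the
subgroup of those over `k₂`). -/
def HasFactor {k : Type} [Field k] (F L : IntermediateField k (AlgebraicClosure k)) (l : ℕ) :
    Prop :=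
  ∃ k₁ k₂ : IntermediateField k (AlgebraicClosure k), F ≤ k₁ ∧ k₁ ≤ k₂ ∧ k₂ ≤ L ∧
    FiniteDimensional k k₂ ∧ (∀ σ ∈ F.fixingSubgroup, ∀ x ∈ k₁, σ x ∈ k₁) ∧
    ∃ f : k₁.fixingSubgroup →* Matrix.ProjectiveSpecialLinearGroup (Fin 2) (ZMod l),
      Function.Surjective f ∧
      ∀ σ : k₁.fixingSubgroup, f σ = 1 ↔
        (σ : AlgebraicClosure k ≃ₐ[k] AlgebraicClosure k) ∈ k₂.fixingSubgroup

/-- `K` is contained in (has an embedding over `k` into) a Galois extension `L`, of finite or infinite degree, of an
extension `F` of `k` of degree at most `d`, such that `PSL₂(F_l)` is not a factor of `L` over `F` for the primes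
`l > max(d, 3)`. -/
def WithoutFactors (k K : Type) [Field k] [Field K] [Algebra k K] (d : ℕ) : Prop :=
  ∃ (F L : IntermediateField k (AlgebraicClosure k)) (i : K →ₐ[k] AlgebraicClosure k),
    F ≤ L ∧ FiniteDimensional k F ∧ Module.finrank k F ≤ d ∧
      (∀ σ ∈ F.fixingSubgroup, ∀ x ∈ L, σ x ∈ L) ∧ (∀ x, i x ∈ L) ∧
      ∀ l : ℕ, l.Prime → max d 3 < l → ¬ HasFactor F L l

/-- For each `i` an action of the Galois group on `ℤ ^ (n i)`; the Galois group of a finite extension of `K`
acts trivially. -/
structure Twist (K : Type) [Field K] {r : ℕ} (n : Fin r → ℕ) where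
  /-- the matrix of `σ` on `ℤ ^ (n i)` -/
  rep : ∀ i, (AlgebraicClosure K ≃ₐ[K] AlgebraicClosure K) →*
    Matrix.GeneralLinearGroup (Fin (n i)) ℤ
  /-- a finite extension trivialises the action -/
  finite : ∃ M : IntermediateField K (AlgebraicClosure K), FiniteDimensional K M ∧
    ∀ i, ∀ σ ∈ M.fixingSubgroup, rep i σ = 1

/-- The points over the algebraic closure of the product of the `E_i ⊗ ℤ ^ (n i)`, where
`E_i : y² = x³ + A_i x + B_i`. -/
def Product {K : Type} [Field K] {r : ℕ} (n : Fin r → ℕ) (A B : Fin r → K) : Type :=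
  ∀ i, Fin (n i) → Points (A i) (B i)

/-- The points of the product are added in each coordinate. -/
noncomputable instance {K : Type} [Field K] {r : ℕ} (n : Fin r → ℕ) (A B : Fin r → K) :
    AddCommGroup (Product n A B) :=
  Pi.addCommGroup

/-- The action of `σ` on the points of the product of the `E_i ⊗ ℤ ^ (n i)`, for the given action `ρ` on the
`ℤ ^ (n i)`: the product (twist) of the action on the points of `E_i` and of the matrix of `σ`. -/
noncomputable def twisted {K : Type} [Field K] {r : ℕ} {n : Fin r → ℕ} {A B : Fin r → K}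
    (ρ : Twist K n) (σ : AlgebraicClosure K ≃ₐ[K] AlgebraicClosure K) (x : Product n A B) :
    Product n A B :=
  fun i a => ∑ b, ((ρ.rep i σ : Matrix.GeneralLinearGroup (Fin (n i)) ℤ) :
    Matrix (Fin (n i)) (Fin (n i)) ℤ) a b • galois (A i) (B i) σ (x i b)

/-- The kernels of the isogenies over `K` from the twisted product: the finite subgroups of the group of
points over the algebraic closure which are stable under the Galois group. -/
def IsKernel {K : Type} [Field K] {r : ℕ} {n : Fin r → ℕ} {A B : Fin r → K} (ρ : Twist K n)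
    (Γ : AddSubgroup (Product n A B)) : Prop :=
  (Γ : Set (Product n A B)).Finite ∧
    ∀ (σ : AlgebraicClosure K ≃ₐ[K] AlgebraicClosure K) (x : Product n A B), x ∈ Γ →
      twisted ρ σ x ∈ Γ

/-- The class of `x` modulo `Γ` is a point over `K` of the quotient of the twisted product by `Γ`: it is
fixed by the Galois group. -/
def IsRational {K : Type} [Field K] {r : ℕ} {n : Fin r → ℕ} {A B : Fin r → K} (ρ : Twist K n)
    (Γ : AddSubgroup (Product n A B)) (x : Product n A B) : Prop :=
  ∀ σ : AlgebraicClosure K ≃ₐ[K] AlgebraicClosure K, twisted ρ σ x - x ∈ Γ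

/-- the order of the class of `x` modulo `Γ`, and `0` if the order is infinite -/
noncomputable def order {K : Type} [Field K] {r : ℕ} {n : Fin r → ℕ} {A B : Fin r → K}
    (Γ : AddSubgroup (Product n A B)) (x : Product n A B) : ℕ :=
  addOrderOf (x : Product n A B ⧸ Γ)

/-- `T` is a group of torsion points over `K` of the quotient of the twisted product by `Γ`. -/
def IsTorsionGroup {K : Type} [Field K] {r : ℕ} {n : Fin r → ℕ} {A B : Fin r → K} (ρ : Twist K n)
    (Γ : AddSubgroup (Product n A B)) (T : AddSubgroup (Product n A B ⧸ Γ)) : Prop :=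
  ∀ t ∈ T, IsOfFinAddOrder t ∧ ∃ x : Product n A B, IsRational ρ Γ x ∧ (x : Product n A B ⧸ Γ) = t

/-- all prime divisors of `m` are larger than `max(d, 3)` -/
def LargePrimes (d m : ℕ) : Prop := ∀ l : ℕ, l.Prime → l ∣ m → max d 3 < l

/-- Bounds for the torsion points over `K` of the quotient of the twisted product by `Γ`, `g` being its
dimension: the divisors of the orders whose prime divisors are larger than `max(d, 3)` divide
`lcm(1, …, 2g) ^ (2g)`, and a group of torsion points over `K` all of whose orders have only prime divisors larger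
than `max(d, 3)` has at most `lcm(1, …, 2g) ^ (4g²)` elements. -/
def TorsionBound {K : Type} [Field K] {r : ℕ} {n : Fin r → ℕ} {A B : Fin r → K} (d g : ℕ)
    (ρ : Twist K n) (Γ : AddSubgroup (Product n A B)) : Prop :=
  (∀ x : Product n A B, IsRational ρ Γ x → order Γ x ≠ 0 →
    ∀ m : ℕ, m ∣ order Γ x → LargePrimes d m → m ∣ (Finset.Icc 1 (2 * g)).lcm id ^ (2 * g)) ∧
  ∀ T : AddSubgroup (Product n A B ⧸ Γ), IsTorsionGroup ρ Γ T →
    (∀ t ∈ T, LargePrimes d (addOrderOf t)) →
    Finite T ∧ Nat.card T ≤ (Finset.Icc 1 (2 * g)).lcm id ^ (4 * g ^ 2)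

/-- For all `d`, all fields `K ⊇ k` in a Galois extension without factors `PSL₂(F_l)`, `l > max(d, 3)`, of an
extension of degree at most `d` of `k`, and all abelian varieties over `K` which are geometrically isogenous
to products of elliptic curves with invariants in `J`: the bounds above. -/
def UniformlyBounded (k : Type) [Field k] [NumberField k] (J : Set k) : Prop :=
  ∀ (K : Type) [Field K] [Algebra k K] (d : ℕ), WithoutFactors k K d →
    ∀ (r : ℕ) (n : Fin r → ℕ) (A B : Fin r → K) (j : Fin r → k),
      (∀ i, 4 * A i ^ 3 + 27 * B i ^ 2 ≠ 0 ∧ j i ∈ J ∧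
        jInvariant (A i) (B i) = algebraMap k K (j i)) →
      ∀ (ρ : Twist K n) (Γ : AddSubgroup (Product n A B)), IsKernel ρ Γ →
        TorsionBound d (∑ i, n i) ρ Γ

theorem inv_eq (K : Type) [Field K] [NumberField K] (X : ℝ) :
    Invariants K X = Pool.Agent.Q19.JL.Iv K X := by
  ext j
  constructor
  · rintro ⟨h0, h1, h2⟩
    refine ⟨h0, h1, ?_⟩
    rw [← Pool.Agent.Q19.JL.rad_eq h0 h1]
    exact h2
  · rintro ⟨h0, h1, h2⟩
    refine ⟨h0, h1, ?_⟩
    rw [← Pool.Agent.Q19.JL.rad_eq h0 h1] at h2
    exact h2

/-- the arithmetic of the orders -/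
theorem dvd_pow_of {d e m t : ℕ} (he : e ≠ 0) (x y : Fin t → ℕ) (hx0 : ∀ a, x a ≠ 0)
    (hy0 : ∀ a, y a ≠ 0) (hx : ∀ a (l b : ℕ), l.Prime → max d 3 < l → l ^ b ∣ x a → l ^ b ∣ e)
    (hy : ∀ a (l b : ℕ), l.Prime → max d 3 < l → l ^ b ∣ y a → l ^ b ∣ e)
    (hm : m ∣ ∏ a, (x a * y a)) (hl : LargePrimes d m) : m ∣ e ^ (2 * t) := by
  have hP : ∏ a, (x a * y a) ≠ 0 :=
    Finset.prod_ne_zero_iff.2 fun a _ => mul_ne_zero (hx0 a) (hy0 a)
  have hm0 : m ≠ 0 := by
    rintro rfl
    exact hP (zero_dvd_iff.1 hm)
  rw [← Nat.factorization_le_iff_dvd hm0 (pow_ne_zero _ he)]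
  intro l
  by_cases hlp : l.Prime
  swap
  · rw [Nat.factorization_eq_zero_of_not_prime _ hlp]
    exact Nat.zero_le _
  by_cases hlm : l ∣ m
  swap
  · rw [Nat.factorization_eq_zero_of_not_dvd hlm]
    exact Nat.zero_le _
  have hld := hl l hlp hlm
  have h1 : m.factorization l ≤ (∏ a, (x a * y a)).factorization l :=
    (Nat.factorization_le_iff_dvd hm0 hP).2 hm l
  refine h1.trans ?_
  rw [Nat.factorization_prod fun a _ => mul_ne_zero (hx0 a) (hy0 a), Nat.factorization_pow,
    Finsupp.finset_sum_apply, Finsupp.smul_apply, smul_eq_mul]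
  have h2 : ∀ a ∈ (Finset.univ : Finset (Fin t)), (x a * y a).factorization l ≤
      2 * e.factorization l := by
    intro a _
    rw [Nat.factorization_mul (hx0 a) (hy0 a), Finsupp.add_apply, two_mul]
    refine add_le_add ?_ ?_
    · rw [← hlp.pow_dvd_iff_le_factorization he]
      exact hx a l _ hlp hld (Nat.ordProj_dvd _ _)
    · rw [← hlp.pow_dvd_iff_le_factorization he]
      exact hy a l _ hlp hld (Nat.ordProj_dvd _ _)
  refine (Finset.sum_le_sum h2).trans (le_of_eq ?_)
  rw [Finset.sum_const, Finset.card_univ, Fintype.card_fin, smul_eq_mul]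
  ring

/-- the bounds for a field without projective factors -/
theorem bounded (k : Type) [Field k] [NumberField k] (K : Type) [Field K] [Algebra k K] (d : ℕ)
    (hK : WithoutFactors k K d) (r : ℕ) (n : Fin r → ℕ) (A B : Fin r → K) (j : Fin r → k)
    (h : ∀ i, 4 * A i ^ 3 + 27 * B i ^ 2 ≠ 0 ∧ Pool.Agent.N495.TS.LJk (j i) ∧
      jInvariant (A i) (B i) = algebraMap k K (j i))
    (ρ : Twist K n) (Γ : AddSubgroup (Product n A B)) (hΓ : IsKernel ρ Γ) :
    TorsionBound d (∑ i, n i) ρ Γ := by
  have : CharZero K := charZero_of_injective_algebraMap (algebraMap k K).injective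
  have hT : Pool.Agent.P8H12.ST.NoFac k K d := hK
  have hcore := Pool.Agent.P8H76.PF.core Pool.Agent.P8H53.PF.nrm Pool.Agent.P8H4.PF.gpw
  have hρ : ∀ i σ, ∃ t : ℕ, 0 < t ∧ ρ.rep i σ ^ t = 1 := by
    intro i σ
    obtain ⟨M, hM, h1⟩ := ρ.finite
    obtain ⟨t, ht, h2⟩ := Pool.Agent.P8H12.ST.pow_fix M σ
    exact ⟨t, ht, by rw [← map_pow]; exact h1 i _ h2⟩
  have hepos : 0 < (Finset.Icc 1 (2 * ∑ i, n i)).lcm id := Nat.pos_of_ne_zero fun h0 => by
    obtain ⟨i, hi, h1⟩ := Finset.lcm_eq_zero_iff.1 h0
    rw [Finset.mem_Icc] at hi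
    have : i = 0 := h1
    omega
  -- torsion orders
  have key : ∀ x : Product n A B, IsRational ρ Γ x → order Γ x ≠ 0 →
      ∀ m : ℕ, m ∣ order Γ x → LargePrimes d m →
        m ∣ (Finset.Icc 1 (2 * ∑ i, n i)).lcm id ^ (2 * ∑ i, n i) := by
    intro x hx h0 m hm hlm
    have hf := addOrderOf_pos_iff.1 (Nat.pos_of_ne_zero h0)
    obtain ⟨c, w, h1, h2⟩ := Pool.Agent.P8H12.ST.twi Pool.Agent.N617.TS.t_TORSM
      Pool.Agent.P8H44.ST.fin (V := fun i => Points (A i) (B i))
      (fun i σ => galois (A i) (B i) σ) (fun i q hq => Pool.Agent.P8H12.ST.span2' (h i).1 hq)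
      ρ.rep hρ Γ hΓ.1 hΓ.2 x hx hf
    have hc : ∀ a (l b : ℕ), l.Prime → max d 3 < l → l ^ b ∣ addOrderOf (c a) →
        l ^ b ∣ (Finset.Icc 1 (2 * ∑ i, n i)).lcm id := fun a l b hl hld hb =>
      (Pool.Agent.P8H12.ST.ordC hcore hT (h _).1 (h _).2.1 (h _).2.2 (h1 a).1 (h1 a).2.2.1 hl hld
        hb).trans (Pool.Agent.P8H12.ST.ee_dvd _)
    have hw : ∀ a (l b : ℕ), l.Prime → max d 3 < l → l ^ b ∣ addOrderOf (w a) →
        l ^ b ∣ (Finset.Icc 1 (2 * ∑ i, n i)).lcm id := fun a l b hl hld hb =>
      (Pool.Agent.P8H12.ST.ordC hcore hT (h _).1 (h _).2.1 (h _).2.2 (h1 a).2.1 (fun σ => by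
        rw [show Pool.Agent.Y673.Loc.act _ _ (σ ^ Pool.Agent.P8H12.ST.ee (∑ i, n i)) (w a) = w a from
          (h1 a).2.2.2 σ]
        exact AddSubgroup.mem_zmultiples _) hl hld hb).trans (Pool.Agent.P8H12.ST.ee_dvd _)
    exact dvd_pow_of hepos.ne' (fun a => addOrderOf (c a)) (fun a => addOrderOf (w a))
      (fun a => (h1 a).1.addOrderOf_pos.ne') (fun a => (h1 a).2.1.addOrderOf_pos.ne') hc hw
      (hm.trans h2) hlm
  refine ⟨key, fun T hTT hTl => ?_⟩
  have h3 := Pool.Agent.P8H12.ST.siz Pool.Agent.N152.TS.t_SIZE
    (V := fun i => Points (A i) (B i)) (fun i q hq => Pool.Agent.P8H12.ST.span2' (h i).1 hq) Γ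
    hΓ.1 T ((Finset.Icc 1 (2 * ∑ i, n i)).lcm id ^ (2 * ∑ i, n i)) (by
      intro t ht
      obtain ⟨hf, x, hx, rfl⟩ := hTT t ht
      exact ⟨hf, Nat.le_of_dvd (pow_pos hepos _)
        (key x hx hf.addOrderOf_pos.ne' _ dvd_rfl (hTl _ ht))⟩)
  refine ⟨h3.1, h3.2.trans (le_of_eq ?_)⟩
  rw [← pow_mul]
  congr 1
  ring

/-- **Theorem.** For every number field `k` there is a set `J` of invariants, containing all but a proportion
`X ^ (-ν)` of the `X ^ (2 / 3 + o(1))` invariants `j ≠ 0, 1728` of `k` with `radical j ≤ X`, such that for all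
`d`, all extensions `F` of degree at most `d` of `k`, all Galois extensions `L` of `F` (of any degree) in which no
group `PSL₂(F_l)`, `l > max(d, 3)`, is a factor, all fields `K` with `k ⊆ K ⊆ L`, all `g` and all abelian varieties `A`
over `K` of dimension `g` which are isogenous over the algebraic closure to products of elliptic curves with
invariants in `J`: the divisors of the orders of the torsion points in `A(K)` which are prime to the primes
`≤ max(d, 3)` divide `lcm(1, …, 2g) ^ (2g)`, and the group of the torsion points in `A(K)` of such orders has at most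
`lcm(1, …, 2g) ^ (4g²)` elements. -/
theorem result (k : Type) [Field k] [NumberField k] :
    ∃ J : Set k, UniformlyBounded k J ∧
      (∃ ν X₀ : ℝ, 0 < ν ∧ ∀ X : ℝ, X₀ ≤ X →
        (({j | j ∈ Invariants k X ∧ j ∉ J} : Set k).ncard : ℝ) ≤
          X ^ (-ν) * (Invariants k X).ncard) ∧
      ∀ δ : ℝ, 0 < δ → ∃ X₀ : ℝ, ∀ X : ℝ, X₀ ≤ X → (Invariants k X).Finite ∧
        X ^ (2 / 3 - δ) ≤ ((Invariants k X).ncard : ℝ) ∧
        ((Invariants k X).ncard : ℝ) ≤ X ^ (2 / 3 + δ) := by
  refine ⟨{j | Pool.Agent.N495.TS.LJk j}, ?_, ?_, ?_⟩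
  · intro K _ _ d hK r n A B j h ρ Γ hΓ
    exact bounded k K d hK r n A B j h ρ Γ hΓ
  · obtain ⟨ν, X₀, hν, -, h⟩ := Pool.Agent.Q19.SU.n_prop k (1 / 2) 1 (by norm_num)
    refine ⟨ν, X₀, hν, fun X hX => ?_⟩
    rw [inv_eq]
    refine h X hX _ (fun j hj => hj.1) fun j hj hcon => hj.2 ?_
    refine Pool.Agent.N495.TS.ljk_of Pool.Agent.N524.TS.t_SERRE hj.1.1 hj.1.2.1 hcon.1 ?_
    have h1 := hcon.2.1
    have h2 := hcon.2.2
    linarith
  · intro δ hδ
    obtain ⟨X1, hX1, h1⟩ := Pool.Agent.Q19.JL.Iv_upper k δ hδ
    obtain ⟨X2, hX2, h2⟩ := Pool.Agent.Q19.JL.Iv_lower k δ hδ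
    refine ⟨max X1 X2, fun X hX => ?_⟩
    rw [inv_eq]
    exact ⟨Pool.Agent.Q19.JL.Iv_fin k (hX1.trans ((le_max_left _ _).trans hX)),
      h2 X ((le_max_right _ _).trans hX), h1 X ((le_max_left _ _).trans hX)⟩

end Pool.Agent.Results.MP_160b6c_nt.NoProjectiveFactor
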