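import Pool.Agent.P8H12.ST.Ord
import Pool.Agent.P8H12.ST.Siz
import Pool.Agent.P8H12.ST.Ar
import Pool.Agent.P8H12.ST.Fix
import Pool.Agent.P8H40.ST.Uni
import Pool.Agent.P8H44.ST.Fin
import Pool.Agent.P8H44.ST.Red
import Pool.Agent.N617.TS.TORSM
import Pool.Agent.N152.TS.SIZE
import Pool.Agent.N524.TS.SERRE

/-!
# MP_160b6c_nt: torsion over towers of solvable extensions, without a bound for the degree, of all abelian
varieties geometrically isogenous to products of elliptic curves with almost all invariants

Let `k` be a number field. The invariants `j ≠ 0, 1728` in `k`, of ALL heights, are ordered by the product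
`radical j` of the norms of the primes (not dividing six) at which `j` reduces to `0`, `1728` or `∞`; there
are `X ^ (2 / 3 + o(1))` with `radical j ≤ X`.

**Theorem.** There is a set `J` of invariants in `k` which contains all but a proportion `X ^ (-ν)` of the
invariants with `radical j ≤ X`, such that for EVERY field `K ⊇ k` which lies in a Galois extension `L` of an
extension `F` of degree at most `d` of `k` for which the `s`-th derived group of `Gal(L/F)` is trivial (`K` may
have any degree over `k`, it may be infinite), EVERY `g` and EVERY abelian variety `A` over `K` of dimension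
`g` which is isogenous over the algebraic closure of `K` to a product of elliptic curves with invariants in
`J`:

* the order of every torsion point in `A(K)` divides `N ^ (2g)`, where
  `N = (2 lcm(1, …, max(d, 3))) ^ (3 ^ s) lcm(1, …, 2g)`, and `A(K)` has at most `N ^ (4g²)` torsion points;
* the prime divisors of these orders are at most `max(d, 3, g + 1)`; this bound does not depend on `s`.

For instance `d = 1`: over all solvable extensions of `k`, of whatever degree, only the primes up to
`max(3, g + 1)` can divide the order of a torsion point, and the torsion over all abelian extensions of `k` is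
bounded in terms of `g`. The starting result `AlmostAllProducts` has the bound `d ^ (4g)` for the fields of
degree `d` over `k` (so here `s = 0`) and for the abelian varieties isogenous to a product OVER `K`; here
the isogeny is only defined over the algebraic closure, so that restrictions of scalars and other abelian
varieties which are simple over `K` are included.

These abelian varieties are described by integral representations: let `E_i`, `i < r`, be elliptic curves over
`K` with invariants in `J`, no two of them isogenous, and let `Λ_i = Hom(E_i, A)` be the group of the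
homomorphisms over the algebraic closure; it is isomorphic to `ℤ ^ (n i)`, the Galois group acts on it through
the group of a finite extension, and the evaluation maps give an isogeny over `K` from the product of the
`E_i ⊗ Λ_i` to `A`. The points of `E_i ⊗ Λ_i` are the `n i`-tuples of points of `E_i`, on which `σ` acts by
`σ` on `E_i` and by its matrix.

Proof. (a) For `j ∈ J` the image of the Galois group of `k` in the automorphism group of `E[l ^ a]`, for every
curve `E` over `k` of invariant `j` and all prime powers `l ^ a`, contains all automorphisms of determinant `1`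
(engine `Q19.SU` of helper19 and helper304, and Serre's lemma; `LJk` of helper495). (b) Every automorphism has
a power `≤ d` which fixes `F`, and the `s`-th iterated commutator subgroup of the group of `F` fixes `K`. In
`SL₂(ℤ/l ^ a)` the iterated commutator subgroups contain the unipotent matrices whose entry is a multiple of
an explicit number, and all unipotent matrices if `l > max(d, 3)`. (c) An integral matrix of finite order and
of size at most `g` has an order which divides the product of the largest powers `≤ 2g` of the primes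
`≤ g + 1`; so a power of every element of the group of `K`, with this exponent, acts on the twisted product as
on the untwisted one. (d) For these powers the torsion of the quotients of products is controlled by the
stable cyclic subgroups of the factors (`TORSM` of helper617), and (b) bounds their orders.

By helper12 with helper40 (unipotent matrices) and helper44 (finite order matrices, towers).
-/

set_option autoImplicit false

open NumberField IsDedekindDomain
open scoped Classical

namespace Pool.Agent.Results.MP_160b6c_nt.SolvableTowers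

/-- The curve `y² = x³ + Ax + B` over `K`. -/
def curve {K : Type} [Field K] (A B : K) : WeierstrassCurve K := ⟨0, 0, 0, A, B⟩

/-- The group of its points over the algebraic closure of `K`. -/
abbrev Points {K : Type} [Field K] (A B : K) : Type :=
  ((curve A B).baseChange (AlgebraicClosure K)).toAffine.Point

/-- The action of an automorphism `σ` of the algebraic closure over `K` on the points. -/
noncomputable def galois {K : Type} [Field K] (A B : K)
    (σ : AlgebraicClosure K ≃ₐ[K] AlgebraicClosure K) : Points A B →+ Points A B :=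
  WeierstrassCurve.Affine.Point.map (σ : AlgebraicClosure K →ₐ[K] AlgebraicClosure K)

/-- The invariant of `y² = x³ + Ax + B`. -/
noncomputable def jInvariant {K : Type} [Field K] (A B : K) : K :=
  6912 * A ^ 3 / (4 * A ^ 3 + 27 * B ^ 2)

/-- the product of the norms of the primes not dividing six at which `j` reduces to `0`, `1728` or
`∞` -/
noncomputable def radical {K : Type} [Field K] [NumberField K] (j : K) : ℝ :=
  ∏ᶠ v ∈ {v : HeightOneSpectrum (𝓞 K) | v.valuation K 6 = 1 ∧
    (v.valuation K j ≠ 1 ∨ v.valuation K (j - 1728) ≠ 1)}, (Ideal.absNorm v.asIdeal : ℝ)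

/-- the invariants `j ≠ 0, 1728`, of whatever height, with `radical j ≤ X` -/
def Invariants (K : Type) [Field K] [NumberField K] (X : ℝ) : Set K :=
  {j | j ≠ 0 ∧ j ≠ 1728 ∧ radical j ≤ X}

/-- `K` is contained in a Galois extension `L` of an extension `F` of `k` of degree at most `d`, and the
`s`-th derived group of the Galois group of `L` over `F` is trivial. -/
def InTower (k K : Type) [Field k] [Field K] [Algebra k K] (d s : ℕ) : Prop :=
  ∃ (F L : Type) (_ : Field F) (_ : Field L) (_ : Algebra k F) (_ : Algebra F L) (_ : Algebra k L)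
    (_ : Algebra K L) (_ : IsScalarTower k F L) (_ : IsScalarTower k K L),
    FiniteDimensional k F ∧ Module.finrank k F ≤ d ∧ IsGalois F L ∧
      derivedSeries (L ≃ₐ[F] L) s = ⊥

/-- For each `i` an action of the Galois group on `ℤ ^ (n i)`; the Galois group of a finite extension of `K`
acts trivially. -/
structure Twist (K : Type) [Field K] {r : ℕ} (n : Fin r → ℕ) where
  /-- the matrix of `σ` on `ℤ ^ (n i)` -/
  rep : ∀ i, (AlgebraicClosure K ≃ₐ[K] AlgebraicClosure K) →*
    Matrix.GeneralLinearGroup (Fin (n i)) ℤ
  /-- a finite extension trivialises the action -/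
  finite : ∃ M : IntermediateField K (AlgebraicClosure K), FiniteDimensional K M ∧
    ∀ i, ∀ σ ∈ M.fixingSubgroup, rep i σ = 1

/-- The points over the algebraic closure of the product of the `E_i ⊗ ℤ ^ (n i)`, where
`E_i : y² = x³ + A_i x + B_i`. -/
def Product {K : Type} [Field K] {r : ℕ} (n : Fin r → ℕ) (A B : Fin r → K) : Type :=
  ∀ i, Fin (n i) → Points (A i) (B i)

/-- The points of the product are added in each coordinate. -/
noncomputable instance {K : Type} [Field K] {r : ℕ} (n : Fin r → ℕ) (A B : Fin r → K) :
    AddCommGroup (Product n A B) :=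
  Pi.addCommGroup

/-- The action of `σ` on the points of the product of the `E_i ⊗ ℤ ^ (n i)`, for the given action `ρ` on the
`ℤ ^ (n i)`: the product (twist) of the action on the points of `E_i` and of the matrix of `σ`. -/
noncomputable def twisted {K : Type} [Field K] {r : ℕ} {n : Fin r → ℕ} {A B : Fin r → K}
    (ρ : Twist K n) (σ : AlgebraicClosure K ≃ₐ[K] AlgebraicClosure K) (x : Product n A B) :
    Product n A B :=
  fun i a => ∑ b, ((ρ.rep i σ : Matrix.GeneralLinearGroup (Fin (n i)) ℤ) :
    Matrix (Fin (n i)) (Fin (n i)) ℤ) a b • galois (A i) (B i) σ (x i b)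

/-- The kernels of the isogenies over `K` from the twisted product: the finite subgroups of the group of
points over the algebraic closure which are stable under the Galois group. -/
def IsKernel {K : Type} [Field K] {r : ℕ} {n : Fin r → ℕ} {A B : Fin r → K} (ρ : Twist K n)
    (Γ : AddSubgroup (Product n A B)) : Prop :=
  (Γ : Set (Product n A B)).Finite ∧
    ∀ (σ : AlgebraicClosure K ≃ₐ[K] AlgebraicClosure K) (x : Product n A B), x ∈ Γ →
      twisted ρ σ x ∈ Γ

/-- The class of `x` modulo `Γ` is a point over `K` of the quotient of the twisted product by `Γ`: it is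
fixed by the Galois group. -/
def IsRational {K : Type} [Field K] {r : ℕ} {n : Fin r → ℕ} {A B : Fin r → K} (ρ : Twist K n)
    (Γ : AddSubgroup (Product n A B)) (x : Product n A B) : Prop :=
  ∀ σ : AlgebraicClosure K ≃ₐ[K] AlgebraicClosure K, twisted ρ σ x - x ∈ Γ

/-- the order of the class of `x` modulo `Γ`, and `0` if the order is infinite -/
noncomputable def order {K : Type} [Field K] {r : ℕ} {n : Fin r → ℕ} {A B : Fin r → K}
    (Γ : AddSubgroup (Product n A B)) (x : Product n A B) : ℕ :=
  addOrderOf (x : Product n A B ⧸ Γ)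

/-- `T` is a group of torsion points over `K` of the quotient of the twisted product by `Γ`. -/
def IsTorsionGroup {K : Type} [Field K] {r : ℕ} {n : Fin r → ℕ} {A B : Fin r → K} (ρ : Twist K n)
    (Γ : AddSubgroup (Product n A B)) (T : AddSubgroup (Product n A B ⧸ Γ)) : Prop :=
  ∀ t ∈ T, IsOfFinAddOrder t ∧ ∃ x : Product n A B, IsRational ρ Γ x ∧ (x : Product n A B ⧸ Γ) = t

/-- `N = (2 lcm(1, …, max(d, 3))) ^ (3 ^ s) lcm(1, …, 2g)` -/
def bound (d s g : ℕ) : ℕ :=
  (2 * (Finset.Icc 1 (max d 3)).lcm id) ^ (3 ^ s) * (Finset.Icc 1 (2 * g)).lcm id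

/-- Bounds for the torsion points over `K` of the quotient of the twisted product by `Γ`, `g` being its
dimension and `N = bound d s g`: all orders divide `N ^ (2g)`, their prime divisors are at most
`max(d, 3, g + 1)`, and there are at most `N ^ (4g²)` torsion points. -/
def TorsionBound {K : Type} [Field K] {r : ℕ} {n : Fin r → ℕ} {A B : Fin r → K} (d s g : ℕ)
    (ρ : Twist K n) (Γ : AddSubgroup (Product n A B)) : Prop :=
  (∀ x : Product n A B, IsRational ρ Γ x → order Γ x ≠ 0 →
    order Γ x ∣ bound d s g ^ (2 * g) ∧
      ∀ l : ℕ, l.Prime → l ∣ order Γ x → l ≤ max (max d 3) (g + 1)) ∧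
  ∀ T : AddSubgroup (Product n A B ⧸ Γ), IsTorsionGroup ρ Γ T →
    Finite T ∧ Nat.card T ≤ bound d s g ^ (4 * g ^ 2)

/-- For all `d` and `s`, all fields `K ⊇ k` in a Galois extension of derived length at most `s` of an
extension of degree at most `d` of `k`, and all abelian varieties over `K` which are geometrically isogenous
to products of elliptic curves with invariants in `J`: the bounds above. -/
def UniformlyBounded (k : Type) [Field k] [NumberField k] (J : Set k) : Prop :=
  ∀ (K : Type) [Field K] [Algebra k K] (d s : ℕ), InTower k K d s →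
    ∀ (r : ℕ) (n : Fin r → ℕ) (A B : Fin r → K) (j : Fin r → k),
      (∀ i, 4 * A i ^ 3 + 27 * B i ^ 2 ≠ 0 ∧ j i ∈ J ∧
        jInvariant (A i) (B i) = algebraMap k K (j i)) →
      ∀ (ρ : Twist K n) (Γ : AddSubgroup (Product n A B)), IsKernel ρ Γ →
        TorsionBound d s (∑ i, n i) ρ Γ

theorem inv_eq (K : Type) [Field K] [NumberField K] (X : ℝ) :
    Invariants K X = Pool.Agent.Q19.JL.Iv K X := by
  ext j
  constructor
  · rintro ⟨h0, h1, h2⟩
    refine ⟨h0, h1, ?_⟩
    rw [← Pool.Agent.Q19.JL.rad_eq h0 h1]
    exact h2
  · rintro ⟨h0, h1, h2⟩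
    refine ⟨h0, h1, ?_⟩
    rw [← Pool.Agent.Q19.JL.rad_eq h0 h1] at h2
    exact h2

/-- the bounds for a field in a tower -/
theorem bounded (k : Type) [Field k] [NumberField k] (K : Type) [Field K] [Algebra k K] (d s : ℕ)
    (hK : InTower k K d s) (r : ℕ) (n : Fin r → ℕ) (A B : Fin r → K) (j : Fin r → k)
    (h : ∀ i, 4 * A i ^ 3 + 27 * B i ^ 2 ≠ 0 ∧ Pool.Agent.N495.TS.LJk (j i) ∧
      jInvariant (A i) (B i) = algebraMap k K (j i))
    (ρ : Twist K n) (Γ : AddSubgroup (Product n A B)) (hΓ : IsKernel ρ Γ) :
    TorsionBound d s (∑ i, n i) ρ Γ := by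
  have : CharZero K := charZero_of_injective_algebraMap (algebraMap k K).injective
  have hT : Pool.Agent.P8H12.ST.Tower k K d s := hK
  have hρ : ∀ i σ, ∃ t : ℕ, 0 < t ∧ ρ.rep i σ ^ t = 1 := by
    intro i σ
    obtain ⟨M, hM, h1⟩ := ρ.finite
    obtain ⟨t, ht, h2⟩ := Pool.Agent.P8H12.ST.pow_fix M σ
    exact ⟨t, ht, by rw [← map_pow]; exact h1 i _ h2⟩
  -- torsion orders
  have key : ∀ x : Product n A B, IsRational ρ Γ x → order Γ x ≠ 0 →
      order Γ x ∣ bound d s (∑ i, n i) ^ (2 * ∑ i, n i) ∧
        ∀ l : ℕ, l.Prime → l ∣ order Γ x → l ≤ max (max d 3) ((∑ i, n i) + 1) := by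
    intro x hx h0
    have hf := addOrderOf_pos_iff.1 (Nat.pos_of_ne_zero h0)
    obtain ⟨c, w, h1, h2⟩ := Pool.Agent.P8H12.ST.twi Pool.Agent.N617.TS.t_TORSM
      Pool.Agent.P8H44.ST.fin (V := fun i => Points (A i) (B i))
      (fun i σ => galois (A i) (B i) σ) (fun i q hq => Pool.Agent.P8H12.ST.span2' (h i).1 hq)
      ρ.rep hρ Γ hΓ.1 hΓ.2 x hx hf
    have hc := fun a => Pool.Agent.P8H12.ST.ord Pool.Agent.P8H40.ST.uni Pool.Agent.P8H44.ST.red
      hT (h _).1 (h _).2.1 (h _).2.2 (h1 a).1 (h1 a).2.2.1
    have hw := fun a => Pool.Agent.P8H12.ST.ord Pool.Agent.P8H40.ST.uni Pool.Agent.P8H44.ST.red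
      hT (h _).1 (h _).2.1 (h _).2.2 (h1 a).2.1 (fun σ => by
        rw [show Pool.Agent.Y673.Loc.act _ _ (σ ^ Pool.Agent.P8H12.ST.ee (∑ i, n i)) (w a) = w a from
          (h1 a).2.2.2 σ]
        exact AddSubgroup.mem_zmultiples _)
    have hN : Pool.Agent.P8H12.ST.mm d s * Pool.Agent.P8H12.ST.ee (∑ i, n i) ∣
        bound d s (∑ i, n i) :=
      mul_dvd_mul (Pool.Agent.P8H12.ST.mm_dvd d s) (Pool.Agent.P8H12.ST.ee_dvd _)
    constructor
    · refine h2.trans ?_
      have e1 : ∏ a : Fin (∑ i, n i), (addOrderOf (c a) * addOrderOf (w a)) ∣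
          ∏ _a : Fin (∑ i, n i), bound d s (∑ i, n i) ^ 2 := by
        refine Finset.prod_dvd_prod_of_dvd _ _ fun a _ => ?_
        rw [pow_two]
        exact mul_dvd_mul ((hc a).1.trans hN) ((hw a).1.trans hN)
      refine e1.trans ?_
      rw [Finset.prod_const, Finset.card_univ, Fintype.card_fin, ← pow_mul]
    · intro l hl hd
      obtain ⟨a, -, ha⟩ := (Prime.dvd_finsetProd_iff hl.prime _).1 (hd.trans h2)
      rcases le_or_gt l (max d 3) with h3 | h3
      · exact h3.trans (le_max_left _ _)
      · refine le_trans ?_ (le_max_right _ _)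
        refine Pool.Agent.P8H12.ST.ee_prime hl ?_
        rcases (hl.dvd_mul).1 ha with h4 | h4
        · exact (hc a).2 l hl h3 h4
        · exact (hw a).2 l hl h3 h4
  refine ⟨key, fun T hTT => ?_⟩
  have hbpos : 0 < bound d s (∑ i, n i) := by
    have e1 : ∀ m : ℕ, 0 < (Finset.Icc 1 m).lcm id := fun m => Nat.pos_of_ne_zero fun h0 => by
      obtain ⟨i, hi, h1⟩ := Finset.lcm_eq_zero_iff.1 h0
      rw [Finset.mem_Icc] at hi
      have : i = 0 := h1
      omega
    exact Nat.mul_pos (pow_pos (Nat.mul_pos two_pos (e1 _)) _) (e1 _)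
  have h3 := Pool.Agent.P8H12.ST.siz Pool.Agent.N152.TS.t_SIZE
    (V := fun i => Points (A i) (B i)) (fun i q hq => Pool.Agent.P8H12.ST.span2' (h i).1 hq) Γ
    hΓ.1 T (bound d s (∑ i, n i) ^ (2 * ∑ i, n i)) (by
      intro t ht
      obtain ⟨hf, x, hx, rfl⟩ := hTT t ht
      exact ⟨hf, Nat.le_of_dvd (pow_pos hbpos _) (key x hx hf.addOrderOf_pos.ne').1⟩)
  refine ⟨h3.1, h3.2.trans (le_of_eq ?_)⟩
  rw [← pow_mul]
  congr 1
  ring

/-- **Theorem.** For every number field `k` there is a set `J` of invariants, containing all but a proportion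
`X ^ (-ν)` of the `X ^ (2 / 3 + o(1))` invariants `j ≠ 0, 1728` of `k` with `radical j ≤ X`, such that for all
`d`, `s`, all fields `K ⊇ k`, finite or infinite, contained in a Galois extension of derived length at most `s`
of an extension of degree at most `d` of `k`, all `g` and all abelian varieties over `K` of dimension `g`
which are isogenous over the algebraic closure to products of elliptic curves with invariants in `J`, the
orders of the torsion points over `K` divide `N ^ (2g)`, `N = (2 lcm(1, …, max(d, 3))) ^ (3 ^ s) lcm(1, …, 2g)`,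
there are at most `N ^ (4g²)` torsion points, and the prime divisors of the orders are at most
`max(d, 3, g + 1)`, which does not depend on `s`. -/
theorem result (k : Type) [Field k] [NumberField k] :
    ∃ J : Set k, UniformlyBounded k J ∧
      (∃ ν X₀ : ℝ, 0 < ν ∧ ∀ X : ℝ, X₀ ≤ X →
        (({j | j ∈ Invariants k X ∧ j ∉ J} : Set k).ncard : ℝ) ≤
          X ^ (-ν) * (Invariants k X).ncard) ∧
      ∀ δ : ℝ, 0 < δ → ∃ X₀ : ℝ, ∀ X : ℝ, X₀ ≤ X → (Invariants k X).Finite ∧
        X ^ (2 / 3 - δ) ≤ ((Invariants k X).ncard : ℝ) ∧
        ((Invariants k X).ncard : ℝ) ≤ X ^ (2 / 3 + δ) := by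
  refine ⟨{j | Pool.Agent.N495.TS.LJk j}, ?_, ?_, ?_⟩
  · intro K _ _ d s hK r n A B j h ρ Γ hΓ
    exact bounded k K d s hK r n A B j h ρ Γ hΓ
  · obtain ⟨ν, X₀, hν, -, h⟩ := Pool.Agent.Q19.SU.n_prop k (1 / 2) 1 (by norm_num)
    refine ⟨ν, X₀, hν, fun X hX => ?_⟩
    rw [inv_eq]
    refine h X hX _ (fun j hj => hj.1) fun j hj hcon => hj.2 ?_
    refine Pool.Agent.N495.TS.ljk_of Pool.Agent.N524.TS.t_SERRE hj.1.1 hj.1.2.1 hcon.1 ?_
    have h1 := hcon.2.1
    have h2 := hcon.2.2
    linarith
  · intro δ hδ
    obtain ⟨X1, hX1, h1⟩ := Pool.Agent.Q19.JL.Iv_upper k δ hδ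
    obtain ⟨X2, hX2, h2⟩ := Pool.Agent.Q19.JL.Iv_lower k δ hδ
    refine ⟨max X1 X2, fun X hX => ?_⟩
    rw [inv_eq]
    exact ⟨Pool.Agent.Q19.JL.Iv_fin k (hX1.trans ((le_max_left _ _).trans hX)),
      h2 X ((le_max_right _ _).trans hX), h1 X ((le_max_left _ _).trans hX)⟩

end Pool.Agent.Results.MP_160b6c_nt.SolvableTowers
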